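import Mathlib
import Pool.Agent.H228R3.SigmaThree

set_option autoImplicit false

namespace Pool.Agent.Results.MP_e3cf1a_co.QuadraticOrder

open Finset Classical Asymptotics

/-- A 3-graph on the vertex set `α`: a finite set of 3-element subsets of `α`. -/
def IsThreeGraph {α : Type} (H : Finset (Finset α)) : Prop := ∀ e ∈ H, e.card = 3

/-- The 3-graph `H` contains a copy of the 3-graph `F`: some injection of the vertex set of `F` into
the vertex set of `H` sends every edge of `F` to an edge of `H`. -/
def ContainsCopy {α β : Type} (F : Set (Finset α)) (H : Finset (Finset β)) : Prop :=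
  ∃ φ : α ↪ β, ∀ e ∈ F, e.map φ ∈ H

/-- The Turan number `ex_3(n, F)`: the largest number of edges of a 3-graph on `n` vertices that
contains no copy of `F`. -/
noncomputable def ex3 {α : Type} (F : Set (Finset α)) (n : ℕ) : ℕ :=
  sSup {m | ∃ H : Finset (Finset (Fin n)), IsThreeGraph H ∧ ¬ ContainsCopy F H ∧ H.card = m}

/-- The 3-uniform expansion of the graph `G`: its vertices are the vertices of `G` and one new vertex
for every edge of `G`, its edges are the triples `{u, v, z_{uv}}` with `uv` an edge of `G`. -/
def expansion {V : Type} (G : SimpleGraph V) : Set (Finset (V ⊕ G.edgeSet)) :=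
  {s | ∃ (u v : V) (h : G.Adj u v),
    s = {Sum.inl u, Sum.inl v, Sum.inr ⟨s(u, v), (SimpleGraph.mem_edgeSet G).mpr h⟩}}

/-- `X` is a crosscut of `F`: it meets every edge of `F` in exactly one vertex. -/
def IsCrosscut {α : Type} (F : Set (Finset α)) (X : Finset α) : Prop :=
  ∀ e ∈ F, ∃! v, v ∈ e ∧ v ∈ X

/-- The minimum size `σ(F)` of a crosscut of `F`. -/
noncomputable def crosscutNumber {α : Type} (F : Set (Finset α)) : ℕ :=
  sInf {m | ∃ X : Finset α, IsCrosscut F X ∧ X.card = m}

/-- the triples meeting `{0, 1}` in exactly one vertex contain no copy of a 3-graph whose crosscuts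
all have at least three vertices -/
lemma lower {α : Type} [Fintype α] (F : Set (Finset α)) (hF : ∀ e ∈ F, e.card = 3)
    (hσ : ∀ X : Finset α, IsCrosscut F X → 3 ≤ X.card) (n : ℕ) :
    ∃ H : Finset (Finset (Fin (n + 2))), IsThreeGraph H ∧ ¬ ContainsCopy F H ∧
      H.card = 2 * n.choose 2 := by
  set S : Finset (Fin (n + 2)) := {0, 1} with hS
  have hScard : S.card = 2 := by
    rw [hS, card_pair]
    intro h
    have := congrArg Fin.val h
    simp at this
  set H : Finset (Finset (Fin (n + 2))) :=
    (powersetCard 3 univ).filter (fun e => (e ∩ S).card = 1) with hH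
  refine ⟨H, ?_, ?_, ?_⟩
  · intro e he
    rw [hH, mem_filter, mem_powersetCard] at he
    exact he.1.2
  · rintro ⟨φ, hcopy⟩
    set X : Finset α := univ.filter (fun a => φ a ∈ S) with hX
    have hcross : IsCrosscut F X := by
      intro e he
      have h1 := hcopy e he
      rw [hH, mem_filter] at h1
      obtain ⟨b, hb⟩ := card_eq_one.mp h1.2
      have hb1 := mem_inter.mp ((Finset.ext_iff.mp hb b).mpr (mem_singleton_self b))
      obtain ⟨a, ha, rfl⟩ := mem_map.mp hb1.1
      refine ⟨a, ⟨ha, ?_⟩, ?_⟩
      · rw [hX, mem_filter]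
        exact ⟨mem_univ _, hb1.2⟩
      · rintro a' ⟨ha', haX'⟩
        rw [hX, mem_filter] at haX'
        apply φ.injective
        exact mem_singleton.mp ((Finset.ext_iff.mp hb (φ a')).mp
          (mem_inter.mpr ⟨mem_map.mpr ⟨a', ha', rfl⟩, haX'.2⟩))
    have h4 := hσ X hcross
    have h5 : (X.map φ).card = X.card := card_map φ
    have h6 : X.map φ ⊆ S := by
      intro z hz
      rw [mem_map] at hz
      obtain ⟨a, ha, rfl⟩ := hz
      rw [hX, mem_filter] at ha
      exact ha.2
    have h7 := card_le_card h6
    omega
  · -- count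
    have hcompl : (Sᶜ).card = n := by
      rw [card_compl, hScard, Fintype.card_fin]; omega
    have hbij : H = (S ×ˢ (powersetCard 2 Sᶜ)).image (fun p => insert p.1 p.2) := by
      ext e
      rw [hH, mem_filter, mem_powersetCard, mem_image]
      constructor
      · rintro ⟨⟨-, h3⟩, h1⟩
        obtain ⟨a, ha⟩ := card_eq_one.mp h1
        have haS : a ∈ e ∩ S := by rw [ha]; exact mem_singleton_self a
        rw [mem_inter] at haS
        refine ⟨(a, e.erase a), ?_, insert_erase haS.1⟩
        rw [mem_product, mem_powersetCard]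
        refine ⟨haS.2, ?_, ?_⟩
        · intro z hz
          rw [mem_erase] at hz
          rw [mem_compl]
          intro hzS
          have : z ∈ e ∩ S := mem_inter.mpr ⟨hz.2, hzS⟩
          rw [ha, mem_singleton] at this
          exact hz.1 this
        · rw [card_erase_of_mem haS.1, h3]
      · rintro ⟨⟨a, f⟩, hp, rfl⟩
        rw [mem_product, mem_powersetCard] at hp
        obtain ⟨haS, hf, hf2⟩ := hp
        simp only at haS hf hf2 ⊢
        have haf : a ∉ f := fun h => (mem_compl.mp (hf h)) haS
        refine ⟨⟨subset_univ _, ?_⟩, ?_⟩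
        · rw [card_insert_of_notMem haf, hf2]
        · have : insert a f ∩ S = {a} := by
            ext z
            simp only [mem_inter, mem_insert, mem_singleton]
            constructor
            · rintro ⟨rfl | hz, hzS⟩
              · rfl
              · exact absurd hzS (mem_compl.mp (hf hz))
            · rintro rfl
              exact ⟨Or.inl rfl, haS⟩
          rw [this, card_singleton]
    rw [hbij, card_image_of_injOn, card_product, card_powersetCard, hScard, hcompl]
    rintro ⟨a, f⟩ hp ⟨b, g⟩ hq heq
    simp only [coe_product, Set.mem_prod, mem_coe, mem_powersetCard] at hp hq heq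
    have haf : a ∉ f := fun h => (mem_compl.mp (hp.2.1 h)) hp.1
    have hbg : b ∉ g := fun h => (mem_compl.mp (hq.2.1 h)) hq.1
    have hab : a = b := by
      have h1 : a ∈ insert b g := heq ▸ mem_insert_self a f
      rcases mem_insert.mp h1 with h | h
      · exact h
      · exact absurd hp.1 (mem_compl.mp (hq.2.1 h))
    subst hab
    have hfg : f = g := by
      rw [← erase_insert haf, ← erase_insert hbg, heq]
    rw [hfg]

/-- **Answer.** For every finite graph `G` with `σ(G⁺) = 3` the Turan number `ex_3(n, G⁺)` has order of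
magnitude `n ^ 2`. -/
theorem result {V : Type} [Fintype V] (G : SimpleGraph V)
    (hσ : crosscutNumber (expansion G) = 3) :
    (fun n : ℕ => (ex3 (expansion G) n : ℝ)) =Θ[Filter.atTop] (fun n : ℕ => (n : ℝ) ^ 2) := by
  have hF : ∀ e ∈ expansion G, e.card = 3 := by
    rintro e ⟨u, v, h, rfl⟩
    rw [card_eq_three]
    exact ⟨_, _, _, by simpa using h.ne, by simp, by simp, rfl⟩
  have hne : {m | ∃ X : Finset (V ⊕ G.edgeSet), IsCrosscut (expansion G) X ∧ X.card = m}.Nonempty := by
    by_contra hemp
    rw [Set.not_nonempty_iff_eq_empty] at hemp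
    rw [crosscutNumber, hemp, Nat.sInf_empty] at hσ
    exact absurd hσ (by norm_num)
  have hmin : ∀ X : Finset (V ⊕ G.edgeSet), IsCrosscut (expansion G) X → 3 ≤ X.card := by
    intro X hX
    rw [← hσ]
    exact Nat.sInf_le ⟨X, hX, rfl⟩
  have hcr : ∃ X : Finset (V ⊕ G.edgeSet), IsCrosscut (expansion G) X ∧ X.card = 3 := by
    have := Nat.sInf_mem hne
    rw [crosscutNumber] at hσ
    rw [hσ] at this
    exact this
  -- bounded sets
  have hbdd : ∀ n, BddAbove {m | ∃ H : Finset (Finset (Fin n)), IsThreeGraph H ∧
      ¬ ContainsCopy (expansion G) H ∧ H.card = m} := by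
    intro n
    refine ⟨Fintype.card (Finset (Fin n)), ?_⟩
    rintro m ⟨H, -, -, rfl⟩
    exact card_le_univ H
  constructor
  · -- upper bound
    obtain ⟨X, hX, hX3⟩ := hcr
    obtain ⟨C, hC⟩ := H228R3.SigmaThree.sigma_three_bound V G ⟨⟨X, hX3, by
      intro u v h
      obtain ⟨a, haX, huniq⟩ := hX _ ⟨u, v, h, rfl⟩
      have key : ∀ w, w ∈ ({Sum.inl u, Sum.inl v,
          Sum.inr ⟨s(u, v), (SimpleGraph.mem_edgeSet G).mpr h⟩} : Finset (V ⊕ G.edgeSet)) → w ∈ X →
          w = a := fun w hw hwX => huniq w ⟨hw, hwX⟩
      have k1 := key (Sum.inl u) (by simp)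
      have k2 := key (Sum.inl v) (by simp)
      have k3 := key (Sum.inr ⟨s(u, v), (SimpleGraph.mem_edgeSet G).mpr h⟩) (by simp)
      have hmem := haX.1
      simp only [mem_insert, mem_singleton] at hmem
      rcases hmem with rfl | rfl | rfl
      · left
        refine ⟨haX.2, fun h' => ?_, fun h' => ?_⟩
        · have := k2 h'
          simp only [Sum.inl.injEq] at this
          exact h.ne this.symm
        · have := k3 h'
          simp at this
      · right; left
        refine ⟨fun h' => ?_, haX.2, fun h' => ?_⟩
        · have := k1 h'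
          simp only [Sum.inl.injEq] at this
          exact h.ne this
        · have := k3 h'
          simp at this
      · right; right
        refine ⟨fun h' => ?_, fun h' => ?_, haX.2⟩
        · have := k1 h'
          simp at this
        · have := k2 h'
          simp at this⟩, by
      intro Y hY
      apply hmin Y
      rintro e ⟨u, v, h, rfl⟩
      have h1 := hY u v h
      rcases h1 with ⟨a1, a2, a3⟩ | ⟨a1, a2, a3⟩ | ⟨a1, a2, a3⟩
      · refine ⟨Sum.inl u, ⟨by simp, a1⟩, ?_⟩
        rintro w ⟨hw0, hw⟩
        simp only [mem_insert, mem_singleton] at hw0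
        rcases hw0 with rfl | rfl | rfl
        · rfl
        · exact absurd hw a2
        · exact absurd hw a3
      · refine ⟨Sum.inl v, ⟨by simp, a2⟩, ?_⟩
        rintro w ⟨hw0, hw⟩
        simp only [mem_insert, mem_singleton] at hw0
        rcases hw0 with rfl | rfl | rfl
        · exact absurd hw a1
        · rfl
        · exact absurd hw a3
      · refine ⟨Sum.inr ⟨s(u, v), (SimpleGraph.mem_edgeSet G).mpr h⟩, ⟨by simp, a3⟩, ?_⟩
        rintro w ⟨hw0, hw⟩
        simp only [mem_insert, mem_singleton] at hw0
        rcases hw0 with rfl | rfl | rfl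
        · exact absurd hw a1
        · exact absurd hw a2
        · rfl⟩
    rw [isBigO_iff]
    refine ⟨C, Filter.Eventually.of_forall fun n => ?_⟩
    rw [Real.norm_of_nonneg (by positivity), Real.norm_of_nonneg (by positivity)]
    by_cases hn : {m | ∃ H : Finset (Finset (Fin n)), IsThreeGraph H ∧
      ¬ ContainsCopy (expansion G) H ∧ H.card = m}.Nonempty
    · have hmem := Nat.sSup_mem hn (hbdd n)
      obtain ⟨H, hH3, hHno, hHc⟩ := hmem
      have h2 := hC n H hH3 (by
        rintro ⟨f, hf, g, hg, hgf, hfg⟩
        apply hHno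
        refine ⟨⟨Sum.elim f g, ?_⟩, ?_⟩
        · intro a b hab
          rcases a with a | a <;> rcases b with b | b
          · exact congrArg Sum.inl (hf hab)
          · exact absurd hab.symm (hgf b a)
          · exact absurd hab (hgf a b)
          · exact congrArg Sum.inr (hg hab)
        · rintro e ⟨u, v, h, rfl⟩
          have h3 := hfg u v h
          suffices hh : ∀ s : Finset (Fin n), (∀ z, z ∈ s ↔ z = f u ∨ z = f v ∨
              z = g ⟨s(u, v), (SimpleGraph.mem_edgeSet G).mpr h⟩) → s ∈ H by
            apply hh
            intro z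
            simp [eq_comm, mem_map]
          intro s hs
          have : s = {f u, f v, g ⟨s(u, v), (SimpleGraph.mem_edgeSet G).mpr h⟩} := by
            ext z
            rw [hs z]
            simp
          rw [this]
          exact h3)
      rw [hHc] at h2
      exact h2
    · rw [Set.not_nonempty_iff_eq_empty] at hn
      have h0 : ex3 (expansion G) n = 0 := by
        rw [ex3, hn]; exact csSup_empty
      -- then in particular the empty 3-graph contains a copy, so the bound is needed only for 0
      rw [h0]
      have hCn := hC n ∅ (by simp) 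
      by_cases hcopy : ∃ f : V → Fin n, Function.Injective f ∧
          ∃ g : G.edgeSet → Fin n, Function.Injective g ∧
            (∀ (e : G.edgeSet) (x : V), g e ≠ f x) ∧
            ∀ (u v : V) (h : G.Adj u v),
              ({f u, f v, g ⟨s(u, v), (SimpleGraph.mem_edgeSet G).mpr h⟩} : Finset (Fin n)) ∈
                (∅ : Finset (Finset (Fin n)))
      · exfalso
        obtain ⟨f, hf, g, hg, hgf, hfg⟩ := hcopy
        have hno : ∀ u v, ¬ G.Adj u v := fun u v h => by simpa using hfg u v h
        have : IsCrosscut (expansion G) ∅ := by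
          rintro e ⟨u, v, h, rfl⟩
          exact absurd h (hno u v)
        have := hmin ∅ this
        simp at this
      · have := hCn hcopy
        simpa using this
  · -- lower bound
    rw [isBigO_iff]
    refine ⟨16, ?_⟩
    filter_upwards [Filter.eventually_ge_atTop 8] with n hn
    rw [Real.norm_of_nonneg (by positivity), Real.norm_of_nonneg (by positivity)]
    obtain ⟨k, rfl⟩ : ∃ k, n = k + 2 := ⟨n - 2, by omega⟩
    obtain ⟨H, hH3, hHno, hHc⟩ := lower (expansion G) hF hmin k
    have h1 : 2 * k.choose 2 ≤ ex3 (expansion G) (k + 2) := by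
      rw [← hHc]
      exact le_csSup (hbdd (k + 2)) ⟨H, hH3, hHno, rfl⟩
    have h2 : k * (k - 1) = 2 * k.choose 2 := by
      rw [Nat.choose_two_right, Nat.mul_div_cancel' (Nat.even_mul_pred_self k).two_dvd]
    have h3 : (k + 2) ^ 2 ≤ 16 * ex3 (expansion G) (k + 2) := by
      have : (k + 2) ^ 2 ≤ 16 * (k * (k - 1)) := by
        obtain ⟨j, rfl⟩ : ∃ j, k = j + 6 := ⟨k - 6, by omega⟩
        have : j + 6 - 1 = j + 5 := by omega
        rw [this]
        nlinarith
      omega
    exact_mod_cast h3

end Pool.Agent.Results.MP_e3cf1a_co.QuadraticOrder
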